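import Mathlib
import Pool.Agent.R351.GF.Wnd

/-!
# Exchange of exceptional elements in the matroid of algebraic dependence
-/

set_option autoImplicit false

namespace Pool.Agent.L5helper52.T5

open Pool.Agent.R351.GF Filter

section Mat

variable {F : Type} [Field F] {R : Subring F}

/-- The greedy choice. -/
theorem greedy {ι : Type} [DecidableEq ι] (y : ι → F) (W : Set F) (adm : ι → Prop) (τ : ℕ)
    (h : ∀ S : Finset ι, S.card ≤ τ → ∃ A : Finset ι, Disjoint A S ∧ (∀ b ∈ A, adm b) ∧
      ∃ s ∈ A, y s ∈ acl R (W ∪ y '' ((A.erase s : Finset ι) : Set ι))) (m : ℕ) (hm : m ≤ τ + 1) :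
    ∃ S B : Finset ι, S.card = m ∧ S ⊆ B ∧ (∀ b ∈ B, adm b) ∧
      ∀ s ∈ S, y s ∈ acl R (W ∪ y '' ((B \ S : Finset ι) : Set ι)) := by
  induction m with
  | zero => exact ⟨∅, ∅, rfl, subset_rfl, by simp, by simp⟩
  | succ m ih =>
    obtain ⟨S, B, hS, hSB, hB, hy⟩ := ih (by omega)
    obtain ⟨A, hAS, hA, s, hsA, hs⟩ := h S (by omega)
    have hsS : s ∉ S := Finset.disjoint_left.1 hAS hsA
    have h1 : y s ∈ acl R (W ∪ y '' (((A ∪ B) \ insert s S : Finset ι) : Set ι)) := by
      refine acl_mono ?_ hs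
      refine Set.union_subset_union_right _ (Set.image_mono ?_)
      intro b hb
      have hb' := Finset.mem_erase.1 (Finset.mem_coe.1 hb)
      refine Finset.mem_coe.2 (Finset.mem_sdiff.2 ⟨Finset.mem_union_left _ hb'.2, ?_⟩)
      rw [Finset.mem_insert, not_or]
      exact ⟨hb'.1, Finset.disjoint_left.1 hAS hb'.2⟩
    refine ⟨insert s S, A ∪ B, ?_, ?_, ?_, ?_⟩
    · rw [Finset.card_insert_of_notMem hsS, hS]
    · exact Finset.insert_subset (Finset.mem_union_left _ hsA) (hSB.trans Finset.subset_union_right)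
    · intro b hb
      rcases Finset.mem_union.1 hb with hb | hb
      · exact hA b hb
      · exact hB b hb
    · intro s' hs'
      rcases Finset.mem_insert.1 hs' with rfl | hs'
      · exact h1
      · refine acl_of ?_ (hy s' hs')
        rintro x (hx | ⟨b, hb, rfl⟩)
        · exact subset_acl (Or.inl hx)
        · have hb' := Finset.mem_sdiff.1 (Finset.mem_coe.1 hb)
          by_cases hbs : b = s
          · rw [hbs]; exact h1
          · refine subset_acl (Or.inr ⟨b, ?_, rfl⟩)
            refine Finset.mem_coe.2 (Finset.mem_sdiff.2 ⟨Finset.mem_union_right _ hb'.1, ?_⟩)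
            rw [Finset.mem_insert, not_or]
            exact ⟨hbs, hb'.2⟩

/-- The contradiction. -/
theorem no_greedy {ι : Type} [DecidableEq ι] (y z : ι → F) (W : Set F) (adm : ι → Prop) (τ : ℕ)
    (hW : W.encard ≤ τ)
    (hz : ∀ B : Finset ι, (∀ b ∈ B, adm b) → AlgebraicIndependent R (fun b : B => z b))
    (hzy : ∀ b, z b ∈ acl R (W ∪ {y b}))
    (h : ∀ S : Finset ι, S.card ≤ τ → ∃ A : Finset ι, Disjoint A S ∧ (∀ b ∈ A, adm b) ∧
      ∃ s ∈ A, y s ∈ acl R (W ∪ y '' ((A.erase s : Finset ι) : Set ι))) : False := by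
  obtain ⟨S, B, hS, hSB, hB, hy⟩ := greedy y W adm τ h (τ + 1) le_rfl
  have h1 := hz B hB
  have h2 : AlgebraicIndependent R (fun i : Fin B.card => z (B.equivFin.symm i)) :=
    h1.comp _ B.equivFin.symm.injective
  have hcard : (W ∪ y '' ((B \ S : Finset ι) : Set ι)).encard < B.card := by
    refine lt_of_le_of_lt (Set.encard_union_le _ _) ?_
    have h3 : (y '' ((B \ S : Finset ι) : Set ι)).encard ≤ (B \ S).card := by
      refine (Set.encard_image_le _ _).trans ?_
      rw [Set.encard_coe_eq_coe_finsetCard]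
    have h4 : (B \ S).card + (τ + 1) = B.card := by
      rw [Finset.card_sdiff_of_subset hSB, hS]
      have := Finset.card_le_card hSB
      omega
    refine lt_of_le_of_lt (add_le_add hW h3) ?_
    have h5 : (τ : ℕ∞) + ((B \ S).card : ℕ∞) = ((τ + (B \ S).card : ℕ) : ℕ∞) := by push_cast; rfl
    rw [h5]
    exact_mod_cast (show τ + (B \ S).card < B.card by omega)
  obtain ⟨i, hi⟩ := exists_notMem_acl h2 hcard
  apply hi
  set b := B.equivFin.symm i with hb
  have hbB : ∀ b' ∈ B, y b' ∈ acl R (W ∪ y '' ((B \ S : Finset ι) : Set ι)) := by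
    intro b' hb'
    by_cases h3 : b' ∈ S
    · exact hy b' h3
    · exact subset_acl (Or.inr ⟨b', Finset.mem_coe.2 (Finset.mem_sdiff.2 ⟨hb', h3⟩), rfl⟩)
  refine acl_of ?_ (hzy b)
  rintro x (hx | rfl)
  · exact subset_acl (Or.inl hx)
  · exact hbB _ b.2

theorem acl_of_alg {y : F} (S : Set F) (hy : IsAlgebraic R y) : y ∈ acl R S := by
  rw [mem_acl]
  exact hy.extendScalars (FaithfulSMul.algebraMap_injective R (Algebra.adjoin R S))

/-- Change of the ring of coefficients. -/
theorem acl_change {R' : Subring F} (W T : Set F) (hR : ∀ x ∈ R', x ∈ Algebra.adjoin R W) {y : F}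
    (hy : y ∈ acl R' T) : y ∈ acl R (W ∪ T) := by
  rw [mem_acl] at *
  have h1 : ∀ x ∈ Algebra.adjoin R' T, x ∈ Algebra.adjoin R (W ∪ T) := by
    intro x hx
    induction hx using Algebra.adjoin_induction with
    | mem x hx => exact Algebra.subset_adjoin (Or.inr hx)
    | algebraMap r => exact Algebra.adjoin_mono Set.subset_union_left (hR _ r.2)
    | add x y _ _ hx hy => exact Subalgebra.add_mem _ hx hy
    | mul x y _ _ hx hy => exact Subalgebra.mul_mem _ hx hy
  obtain ⟨p, hp0, hp⟩ := hy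
  let φ : Algebra.adjoin R' T →+* Algebra.adjoin R (W ∪ T) :=
    RingHom.codRestrict (algebraMap (Algebra.adjoin R' T) F) (Algebra.adjoin R (W ∪ T)) (fun x => h1 x.1 x.2)
  have h3 : ∀ x, ((φ x : Algebra.adjoin R (W ∪ T)) : F) = x := fun x => by
    simp only [φ, RingHom.codRestrict_apply]
    rfl
  have hφ : Function.Injective φ := fun a b hab => by
    have h4 := h3 a
    rw [hab, h3 b] at h4
    exact Subtype.ext h4.symm
  have h2 : (algebraMap (Algebra.adjoin R (W ∪ T)) F).comp φ = algebraMap (Algebra.adjoin R' T) F :=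
    RingHom.ext fun x => h3 x
  refine ⟨p.map φ, ?_, ?_⟩
  · rwa [Ne, Polynomial.map_eq_zero_iff hφ]
  · rw [Polynomial.aeval_def, Polynomial.eval₂_map, h2]
    exact hp

end Mat

end Pool.Agent.L5helper52.T5
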