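import Mathlib
import Pool.Agent.L5helper52.T5.Ex

/-!
# Small values of polynomials along an ultrafilter give dependent classes in the residue field
-/

set_option autoImplicit false

namespace Pool.Agent.L5helper52.T5

open Pool.Agent.R351.GF Filter

/-- the values of the variables which stand for `θ`, `w` -/
def opt {q : ℕ} {K : Type} (θ : K) (w : Fin q → K) (o : Option (Fin q)) : K := o.elim θ w

/-- the polynomial `P (θ, w, X)` -/
noncomputable def spec {q k : ℕ} (θ : ℂ) (w : Fin q → ℂ) (P : MvPolynomial (Option (Fin q) ⊕ Fin k) ℤ) :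
    MvPolynomial (Fin k) ℂ :=
  MvPolynomial.aeval (Sum.elim (fun o => MvPolynomial.C (opt θ w o)) MvPolynomial.X) P

/-- `θ` is a zero of a nonzero integral polynomial of degree at most `D` with coefficients of size at most `A` -/
def Alg (D A : ℕ) (θ : ℂ) : Prop :=
  ∃ R : Polynomial ℤ, R ≠ 0 ∧ R.natDegree ≤ D ∧ (∀ i, |R.coeff i| ≤ A) ∧ Polynomial.aeval θ R = 0

/-- a small value -/
def Rel (q k D d C A : ℕ) (w : Fin q → ℂ) (x : Fin k → ℂ) : Prop :=
  ∃ θ : ℂ, Alg D A θ ∧ ∃ P : MvPolynomial (Option (Fin q) ⊕ Fin k) ℤ, P.totalDegree ≤ d ∧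
    (∀ s, |P.coeff s| ≤ A) ∧ (∃ s, 1 ≤ (A : ℝ) * ‖(spec θ w P).coeff s‖) ∧
    (A : ℝ) ^ C * ‖MvPolynomial.aeval (Sum.elim (opt θ w) x) P‖ < 1

theorem Alg.norm_le {D A : ℕ} {θ : ℂ} (h : Alg D A θ) : ‖θ‖ ≤ A + 1 := by
  obtain ⟨R, hR0, -, hRA, hR⟩ := h
  set R' : Polynomial ℂ := R.map (Int.castRingHom ℂ) with hR'
  have hinj : Function.Injective (Int.castRingHom ℂ) := RingHom.injective_int _
  have hR'0 : R' ≠ 0 := by rwa [hR', Ne, Polynomial.map_eq_zero_iff hinj]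
  have hroot : R'.IsRoot θ := by
    rw [Polynomial.IsRoot.def, hR', Polynomial.eval_map, ← hR, Polynomial.aeval_def]
    rfl
  have h1 := hroot.norm_lt_cauchyBound hR'0
  have h2 : (R'.cauchyBound : ℝ) ≤ A + 1 := by
    rw [Polynomial.cauchyBound]
    have h3 : (1 : ℝ) ≤ ‖R'.leadingCoeff‖ := by
      have h4 : R'.leadingCoeff = ((R.leadingCoeff : ℤ) : ℂ) := by
        rw [hR', Polynomial.leadingCoeff_map_of_injective hinj]; rfl
      rw [h4, Complex.norm_intCast]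
      exact_mod_cast Int.one_le_abs (Polynomial.leadingCoeff_ne_zero.2 hR0)
    have h5 : (Finset.range R'.natDegree).sup (fun i => ‖R'.coeff i‖₊) ≤ (A : NNReal) := by
      refine Finset.sup_le fun i _ => ?_
      rw [← NNReal.coe_le_coe, coe_nnnorm, hR', Polynomial.coeff_map]
      show ‖((R.coeff i : ℤ) : ℂ)‖ ≤ _
      rw [Complex.norm_intCast]
      have h8 : |((R.coeff i : ℤ) : ℝ)| ≤ (A : ℝ) := by
        rw [← Int.cast_abs]
        exact Int.cast_le.2 (hRA i)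
      simpa using h8
    push_cast
    have h6 : (((Finset.range R'.natDegree).sup (fun i => ‖R'.coeff i‖₊) : NNReal) : ℝ) ≤ A := by exact_mod_cast h5
    have h7 : (((Finset.range R'.natDegree).sup (fun i => ‖R'.coeff i‖₊) : NNReal) : ℝ) / ‖R'.leadingCoeff‖ ≤ A := by
      rw [div_le_iff₀ (by linarith)]
      refine h6.trans (le_mul_of_one_le_right (Nat.cast_nonneg _) h3)
    linarith
  exact (show ‖θ‖ ≤ _ from h1.le).trans h2

section Seq

variable {q k D d : ℕ} (U : Ultrafilter ℕ) (A : ℕ → ℕ)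

/-- the scale -/
def sc (A : ℕ → ℕ) (j : ℕ) : ℕ := 2 * A j

theorem gr_sc (j : ℕ) : gr (sc A) j = 2 * (A j : ℝ) + 2 := by
  unfold gr sc
  push_cast
  ring

/-- the component at `j` -/
noncomputable def ev (H : ℕ → ℕ) (j : ℕ) : Os U H →+* ℂ := (Pi.evalRingHom (fun _ : ℕ => ℂ) j).comp (Os U H).subtype

theorem ev_apply (H : ℕ → ℕ) (j : ℕ) (z : Os U H) : ev U H j z = (z : ℕ → ℂ) j := rfl

theorem mk_eq_zero_of {H : ℕ → ℕ} {z : Os U H} (h : ∀ᶠ j in (U : Filter ℕ), (z : ℕ → ℂ) j = 0) :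
    (Ideal.Quotient.mk (ms U H) z : Fl U H) = 0 := by
  rw [Ideal.Quotient.eq_zero_iff_mem, mem_ms]
  intro C
  filter_upwards [h] with j hj
  rw [hj, norm_zero, zero_mul]
  exact zero_le_one

theorem lc_congr {H : ℕ → ℕ} {a a' : ℕ → ℕ} (h : a =ᶠ[(U : Filter ℕ)] a') : lc U H a = lc U H a' := by
  rw [← sub_eq_zero]
  show (Ideal.Quotient.mk (ms U H) (lo U H a) : Fl U H) - Ideal.Quotient.mk (ms U H) (lo U H a') = 0
  rw [← map_sub]
  apply mk_eq_zero_of
  filter_upwards [h] with j hj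
  show (lo U H a : ℕ → ℂ) j - (lo U H a' : ℕ → ℂ) j = 0
  show (if a j ≤ H j then (Real.log (a j) : ℂ) else 0) - (if a' j ≤ H j then (Real.log (a' j) : ℂ) else 0) = 0
  rw [hj, sub_self]

end Seq

end Pool.Agent.L5helper52.T5
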