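import Mathlib
import Pool.Agent.L5helper52.T5.Seq

/-!
# Small values of polynomials along an ultrafilter give dependent classes: the step
-/

set_option autoImplicit false

namespace Pool.Agent.L5helper52.T5

open Pool.Agent.R351.GF Filter

/-- exponents with entries at most `d` -/
noncomputable def box {V : Type} [Fintype V] [DecidableEq V] (d : ℕ) : Finset (V →₀ ℕ) :=
  (Fintype.piFinset fun _ : V => Finset.range (d + 1)).map Finsupp.equivFunOnFinite.symm.toEmbedding

theorem mem_box {V : Type} [Fintype V] [DecidableEq V] {d : ℕ} {R : Type} [CommSemiring R] {P : MvPolynomial V R}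
    (hP : P.totalDegree ≤ d) {s : V →₀ ℕ} (hs : P.coeff s ≠ 0) : s ∈ box (V := V) d := by
  refine Finset.mem_map.2 ⟨Finsupp.equivFunOnFinite s, ?_, by simp⟩
  rw [Fintype.mem_piFinset]
  intro v
  rw [Finset.mem_range]
  have h1 : s v ≤ P.degreeOf v := MvPolynomial.monomial_le_degreeOf v (MvPolynomial.mem_support_iff.2 hs)
  have h2 := MvPolynomial.degreeOf_le_totalDegree P v
  show s v < d + 1
  omega

section Poly

variable {V : Type} [Fintype V] [DecidableEq V] (U : Ultrafilter ℕ) (H : ℕ → ℕ)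

/-- a polynomial over the integer sequences with given components -/
noncomputable def poly (d : ℕ) (P : ℕ → MvPolynomial V ℤ) (hP : ∀ s, (fun j => (P j).coeff s) ∈ IZ U H) :
    MvPolynomial V (IZ U H) :=
  ∑ s ∈ box d, MvPolynomial.monomial s (⟨_, hP s⟩ : IZ U H)

theorem map_poly {d : ℕ} (P : ℕ → MvPolynomial V ℤ) (hP : ∀ s, (fun j => (P j).coeff s) ∈ IZ U H)
    (hd : ∀ j, (P j).totalDegree ≤ d) (j : ℕ) : MvPolynomial.map (evj U H j) (poly U H d P hP) = P j := by
  rw [poly, map_sum]
  simp only [MvPolynomial.map_monomial, evj_apply]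
  ext s
  rw [MvPolynomial.coeff_sum]
  simp only [MvPolynomial.coeff_monomial]
  rw [Finset.sum_ite_eq' (box d) s]
  split_ifs with h
  · rfl
  · by_contra h1
    exact h (mem_box (hd j) (Ne.symm h1))

end Poly

section Sp

variable {q k : ℕ} (U : Ultrafilter ℕ) (H : ℕ → ℕ)

/-- `P (z, X)` over the sequences -/
noncomputable def specO (z : Option (Fin q) → Os U H) (P : MvPolynomial (Option (Fin q) ⊕ Fin k) (IZ U H)) :
    MvPolynomial (Fin k) (Os U H) :=
  MvPolynomial.eval₂ (MvPolynomial.C.comp (izo U H)) (Sum.elim (fun o => MvPolynomial.C (z o)) MvPolynomial.X) P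

theorem map_specO (z : Option (Fin q) → Os U H) (P : MvPolynomial (Option (Fin q) ⊕ Fin k) (IZ U H)) (j : ℕ)
    (θ : ℂ) (w : Fin q → ℂ) (hz : ∀ o, (z o : ℕ → ℂ) j = opt θ w o) :
    MvPolynomial.map (ev U H j) (specO U H z P) = spec θ w (MvPolynomial.map (evj U H j) P) := by
  have h1 : (MvPolynomial.map (ev U H j)).comp (MvPolynomial.eval₂Hom ((MvPolynomial.C (σ := Fin k)).comp (izo U H))
      (Sum.elim (fun o => MvPolynomial.C (z o)) MvPolynomial.X)) =
      ((MvPolynomial.aeval (Sum.elim (fun o => MvPolynomial.C (opt θ w o)) MvPolynomial.X) :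
        MvPolynomial (Option (Fin q) ⊕ Fin k) ℤ →ₐ[ℤ] MvPolynomial (Fin k) ℂ).toRingHom.comp
          (MvPolynomial.map (evj U H j))) := by
    apply MvPolynomial.ringHom_ext
    · intro n
      simp only [RingHom.comp_apply, MvPolynomial.coe_eval₂Hom, MvPolynomial.eval₂_C, MvPolynomial.map_C,
        AlgHom.toRingHom_eq_coe, RingHom.coe_coe, MvPolynomial.aeval_C, ev_apply, izo_apply, evj_apply]
      simp
    · intro i
      rcases i with o | i
      · simp [ev_apply, hz]
      · simp
  exact DFunLike.congr_fun h1 P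

theorem aeval_spec {q k : ℕ} (θ : ℂ) (w : Fin q → ℂ) (x : Fin k → ℂ) (P : MvPolynomial (Option (Fin q) ⊕ Fin k) ℤ) :
    MvPolynomial.eval x (spec θ w P) = MvPolynomial.aeval (Sum.elim (opt θ w) x) P := by
  have h1 : (MvPolynomial.eval x).comp ((MvPolynomial.aeval (Sum.elim (fun o => MvPolynomial.C (opt θ w o)) MvPolynomial.X) :
        MvPolynomial (Option (Fin q) ⊕ Fin k) ℤ →ₐ[ℤ] MvPolynomial (Fin k) ℂ).toRingHom) =
      (MvPolynomial.aeval (Sum.elim (opt θ w) x) : MvPolynomial (Option (Fin q) ⊕ Fin k) ℤ →ₐ[ℤ] ℂ).toRingHom := by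
    apply MvPolynomial.ringHom_ext
    · intro n; simp
    · intro i
      rcases i with o | i <;> simp
  exact DFunLike.congr_fun h1 P

theorem eval_specO (z : Option (Fin q) → Os U H) (y : Fin k → Os U H)
    (P : MvPolynomial (Option (Fin q) ⊕ Fin k) (IZ U H)) (j : ℕ)
    (θ : ℂ) (w : Fin q → ℂ) (hz : ∀ o, (z o : ℕ → ℂ) j = opt θ w o) :
    ((MvPolynomial.eval y (specO U H z P) : Os U H) : ℕ → ℂ) j =
      MvPolynomial.aeval (Sum.elim (opt θ w) fun i => (y i : ℕ → ℂ) j) (MvPolynomial.map (evj U H j) P) := by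
  rw [← aeval_spec, ← map_specO U H z P j θ w hz]
  have h1 : (ev U H j).comp (MvPolynomial.eval y) =
      (MvPolynomial.eval fun i => (y i : ℕ → ℂ) j).comp (MvPolynomial.map (ev U H j)) := by
    apply MvPolynomial.ringHom_ext
    · intro n; simp
    · intro i; simp [ev_apply]
  exact DFunLike.congr_fun h1 (specO U H z P)

/-- the polynomial `P (z, X)` over a ring of classes -/
noncomputable def specR (R' : Subring (Fl U H)) (φ : IZ U H →+* R') (c : Option (Fin q) → R')
    (P : MvPolynomial (Option (Fin q) ⊕ Fin k) (IZ U H)) : MvPolynomial (Fin k) R' :=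
  MvPolynomial.eval₂ (MvPolynomial.C.comp φ) (Sum.elim (fun o => MvPolynomial.C (c o)) MvPolynomial.X) P

theorem map_specR (R' : Subring (Fl U H)) (φ : IZ U H →+* R') (c : Option (Fin q) → R') (z : Option (Fin q) → Os U H)
    (hφ : ∀ n, (φ n : Fl U H) = psi U H n) (hc : ∀ o, (c o : Fl U H) = Ideal.Quotient.mk (ms U H) (z o))
    (P : MvPolynomial (Option (Fin q) ⊕ Fin k) (IZ U H)) :
    MvPolynomial.map R'.subtype (specR U H R' φ c P) = MvPolynomial.map (Ideal.Quotient.mk (ms U H)) (specO U H z P) := by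
  have h1 : (MvPolynomial.map R'.subtype).comp (MvPolynomial.eval₂Hom ((MvPolynomial.C (σ := Fin k)).comp φ)
      (Sum.elim (fun o => MvPolynomial.C (c o)) MvPolynomial.X)) =
      (MvPolynomial.map (Ideal.Quotient.mk (ms U H))).comp (MvPolynomial.eval₂Hom
        ((MvPolynomial.C (σ := Fin k)).comp (izo U H)) (Sum.elim (fun o => MvPolynomial.C (z o)) MvPolynomial.X)) := by
    apply MvPolynomial.ringHom_ext
    · intro n
      simp only [RingHom.comp_apply, MvPolynomial.coe_eval₂Hom, MvPolynomial.eval₂_C, MvPolynomial.map_C]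
      congr 1
      exact hφ n
    · intro i
      rcases i with o | i
      · simp only [RingHom.comp_apply, MvPolynomial.coe_eval₂Hom, MvPolynomial.eval₂_X, Sum.elim_inl,
          MvPolynomial.map_C]
        congr 1
        exact hc o
      · simp
  exact DFunLike.congr_fun h1 P

end Sp

end Pool.Agent.L5helper52.T5
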