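import Mathlib
import Pool.Agent.L5helper52.T5.Step

/-!
# Small values of polynomials along an ultrafilter give dependent classes: conclusion
-/

set_option autoImplicit false

namespace Pool.Agent.L5helper52.T5

open Pool.Agent.R351.GF Filter

variable {q k D d : ℕ} (U : Ultrafilter ℕ) (A : ℕ → ℕ)

/-- the class of a sequence -/
noncomputable def cls (z : Os U (sc A)) : Fl U (sc A) := Ideal.Quotient.mk (ms U (sc A)) z

theorem cls_eq_zero_iff (z : Os U (sc A)) : cls U A z = 0 ↔
    ∀ C : ℕ, ∀ᶠ j in (U : Filter ℕ), ‖(z : ℕ → ℂ) j‖ * gr (sc A) j ^ C ≤ 1 := by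
  unfold cls
  rw [Ideal.Quotient.eq_zero_iff_mem, mem_ms]

theorem acl_alg {x : Fl U (sc A)} (S : Set (Fl U (sc A)))
    (hx : IsAlgebraic (Zs U (sc A)) x) : x ∈ acl (Zs U (sc A)) S := acl_of_alg S hx

theorem totalDegree_spec (θ : ℂ) (w : Fin q → ℂ) (P : MvPolynomial (Option (Fin q) ⊕ Fin k) ℤ) :
    (spec θ w P).totalDegree ≤ P.totalDegree := by
  classical
  unfold spec
  rw [MvPolynomial.aeval_def, MvPolynomial.eval₂_eq]
  refine (MvPolynomial.totalDegree_finset_sum _ _).trans (Finset.sup_le fun t ht => ?_)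
  refine (MvPolynomial.totalDegree_mul _ _).trans ?_
  have h1 : ((algebraMap ℤ (MvPolynomial (Fin k) ℂ)) (P.coeff t)).totalDegree = 0 := by
    have h2 : (algebraMap ℤ (MvPolynomial (Fin k) ℂ)) (P.coeff t) = MvPolynomial.C ((P.coeff t : ℤ) : ℂ) := by simp
    rw [h2, MvPolynomial.totalDegree_C]
  rw [h1, zero_add]
  refine (MvPolynomial.totalDegree_finset_prod _ _).trans ?_
  refine le_trans (Finset.sum_le_sum fun v _ => (?_ : _ ≤ t v)) (MvPolynomial.le_totalDegree ht)
  refine (MvPolynomial.totalDegree_pow _ _).trans ?_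
  have h3 : (Sum.elim (fun o => MvPolynomial.C (opt θ w o)) MvPolynomial.X v : MvPolynomial (Fin k) ℂ).totalDegree ≤ 1 := by
    rcases v with o | i
    · simp
    · simp
  nlinarith

theorem eval_map_mk (H : ℕ → ℕ) (y : Fin k → Os U H) (Q : MvPolynomial (Fin k) (Os U H)) :
    MvPolynomial.eval (fun i => (Ideal.Quotient.mk (ms U H) (y i) : Fl U H))
      (MvPolynomial.map (Ideal.Quotient.mk (ms U H)) Q) =
      Ideal.Quotient.mk (ms U H) (MvPolynomial.eval y Q) := by
  have h1 : (MvPolynomial.eval (fun i => (Ideal.Quotient.mk (ms U H) (y i) : Fl U H))).comp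
      (MvPolynomial.map (Ideal.Quotient.mk (ms U H))) =
      (Ideal.Quotient.mk (ms U H)).comp (MvPolynomial.eval y) := by
    apply MvPolynomial.ringHom_ext
    · intro n; simp
    · intro i; simp
  exact DFunLike.congr_fun h1 Q

/-- a bounded algebraic sequence is algebraic over the integers -/
theorem alg_cls (θ : Os U (sc A)) (h : ∀ᶠ j in (U : Filter ℕ), Alg D (A j) ((θ : ℕ → ℂ) j)) :
    IsAlgebraic (Zs U (sc A)) (cls U A θ) := by
  classical
  have h1 : ∀ j, ∃ R : Polynomial ℤ, R.natDegree ≤ D ∧ (∀ i, |R.coeff i| ≤ A j) ∧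
      (Alg D (A j) ((θ : ℕ → ℂ) j) → R ≠ 0 ∧ Polynomial.aeval ((θ : ℕ → ℂ) j) R = 0) := by
    intro j
    by_cases hj : Alg D (A j) ((θ : ℕ → ℂ) j)
    · obtain ⟨R, h1, h2, h3, h4⟩ := hj
      exact ⟨R, h2, h3, fun _ => ⟨h1, h4⟩⟩
    · exact ⟨0, by simp, by simp, fun h => absurd h hj⟩
  choose R hRd hRA hR using h1
  have hmem : ∀ i, (fun j => (R j).coeff i) ∈ IZ U (sc A) := fun i => (mem_IZ U (sc A)).2
    ⟨1, Eventually.of_forall fun j => by
      rw [pow_one, gr_sc]
      have h1 : |(((R j).coeff i : ℤ) : ℝ)| ≤ A j := by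
        rw [← Int.cast_abs]
        exact_mod_cast hRA j i
      have h2 : (0 : ℝ) ≤ A j := Nat.cast_nonneg _
      linarith⟩
  set c : ℕ → IZ U (sc A) := fun i => ⟨_, hmem i⟩ with hc
  refine ⟨∑ i ∈ Finset.range (D + 1), Polynomial.monomial i (psr U (sc A) (c i)), ?_, ?_⟩
  · intro h0
    have h2 : ∀ i, i ≤ D → ∀ᶠ j in (U : Filter ℕ), (R j).coeff i = 0 := by
      intro i hi
      have h3 := congrArg (fun p => Polynomial.coeff p i) h0
      simp only [Polynomial.finset_sum_coeff, Polynomial.coeff_monomial, Polynomial.coeff_zero] at h3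
      rw [Finset.sum_ite_eq' (Finset.range (D + 1)) i, if_pos (Finset.mem_range.2 (by omega))] at h3
      have h4 : psi U (sc A) (c i) = 0 := congrArg Subtype.val h3
      rw [psi_eq_zero] at h4
      exact h4
    have h3 : ∀ᶠ j in (U : Filter ℕ), ∀ i ∈ Finset.range (D + 1), (R j).coeff i = 0 := by
      rw [Filter.eventually_all_finset]
      intro i hi
      exact h2 i (by have := Finset.mem_range.1 hi; omega)
    obtain ⟨j, hj1, hj2⟩ := (h3.and h).exists
    apply (hR j hj2).1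
    ext i
    rw [Polynomial.coeff_zero]
    by_cases hi : i ≤ D
    · exact hj1 i (Finset.mem_range.2 (by omega))
    · exact Polynomial.coeff_eq_zero_of_natDegree_lt (lt_of_le_of_lt (hRd j) (by omega))
  · rw [map_sum]
    have h2 : ∀ i, Polynomial.aeval (cls U A θ) (Polynomial.monomial i (psr U (sc A) (c i))) =
        cls U A (izo U (sc A) (c i) * θ ^ i) := by
      intro i
      rw [Polynomial.aeval_monomial]
      unfold cls
      rw [map_mul, map_pow]
      rfl
    simp only [h2]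
    have h3 : ∑ i ∈ Finset.range (D + 1), cls U A (izo U (sc A) (c i) * θ ^ i) =
        cls U A (∑ i ∈ Finset.range (D + 1), izo U (sc A) (c i) * θ ^ i) := by
      unfold cls
      rw [map_sum]
    rw [h3]
    apply mk_eq_zero_of
    filter_upwards [h] with j hj
    have h4 : ev U (sc A) j (∑ i ∈ Finset.range (D + 1), izo U (sc A) (c i) * θ ^ i) = 0 := by
      rw [map_sum]
      have h5 := (hR j hj).2
      rw [Polynomial.aeval_eq_sum_range' (lt_of_le_of_lt (hRd j) (Nat.lt_succ_self D))] at h5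
      rw [← h5]
      refine Finset.sum_congr rfl fun i _ => ?_
      rw [map_mul, map_pow, ev_apply, ev_apply, izo_apply, zsmul_eq_mul]
    exact h4

/-- **The step.** -/
theorem step (C : ℕ → ℕ) (hC : Tendsto C U atTop) (hA : ∀ᶠ j in (U : Filter ℕ), 2 ≤ A j)
    (w : Fin q → Os U (sc A)) (y : Fin k → Os U (sc A))
    (hrel : ∀ᶠ j in (U : Filter ℕ), Rel q k D d (C j) (A j) (fun i => (w i : ℕ → ℂ) j) (fun i => (y i : ℕ → ℂ) j)) :
    ∃ i, cls U A (y i) ∈ acl (Zs U (sc A)) (Set.range (fun i => cls U A (w i)) ∪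
      (fun i' => cls U A (y i')) '' {i' | i' < i}) := by
  classical
  -- the data
  have hdata : ∀ j, ∃ (θ : ℂ) (P : MvPolynomial (Option (Fin q) ⊕ Fin k) ℤ), ‖θ‖ ≤ A j + 1 ∧ P.totalDegree ≤ d ∧
      (∀ s, |P.coeff s| ≤ A j) ∧
      (Rel q k D d (C j) (A j) (fun i => (w i : ℕ → ℂ) j) (fun i => (y i : ℕ → ℂ) j) →
        Alg D (A j) θ ∧ (∃ s, 1 ≤ (A j : ℝ) * ‖(spec θ (fun i => (w i : ℕ → ℂ) j) P).coeff s‖) ∧
        (A j : ℝ) ^ (C j) * ‖MvPolynomial.aeval (Sum.elim (opt θ fun i => (w i : ℕ → ℂ) j)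
          fun i => (y i : ℕ → ℂ) j) P‖ < 1) := by
    intro j
    by_cases hj : Rel q k D d (C j) (A j) (fun i => (w i : ℕ → ℂ) j) (fun i => (y i : ℕ → ℂ) j)
    · obtain ⟨θ, h1, P, h2, h3, h4, h5⟩ := hj
      exact ⟨θ, P, h1.norm_le, h2, h3, fun _ => ⟨h1, h4, h5⟩⟩
    · exact ⟨0, 0, by rw [norm_zero]; positivity, by simp, by simp, fun h => absurd h hj⟩
  choose θ P hθ hPd hPA hprop using hdata
  -- `θ`
  set θO : Os U (sc A) := ⟨θ, 1, Eventually.of_forall fun j => by
    rw [pow_one, gr_sc]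
    have h1 := hθ j
    have h2 : (0 : ℝ) ≤ A j := Nat.cast_nonneg _
    linarith⟩ with hθO
  have hθj : ∀ j, (θO : ℕ → ℂ) j = θ j := fun j => rfl
  have hθalg : IsAlgebraic (Zs U (sc A)) (cls U A θO) := by
    refine alg_cls (D := D) U A θO ?_
    filter_upwards [hrel] with j hj
    exact (hprop j hj).1
  have hPmem : ∀ s, (fun j => (P j).coeff s) ∈ IZ U (sc A) := fun s => (mem_IZ U (sc A)).2
    ⟨1, Eventually.of_forall fun j => by
      rw [pow_one, gr_sc]
      have h1 : |(((P j).coeff s : ℤ) : ℝ)| ≤ A j := by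
        rw [← Int.cast_abs]
        exact_mod_cast hPA j s
      have h2 : (0 : ℝ) ≤ A j := Nat.cast_nonneg _
      linarith⟩
  set Q := poly U (sc A) d P hPmem with hQ
  have hQj : ∀ j, MvPolynomial.map (evj U (sc A) j) Q = P j := map_poly U (sc A) P hPmem hPd
  set z : Option (Fin q) → Os U (sc A) := opt θO w with hz
  have hzj : ∀ j o, (z o : ℕ → ℂ) j = opt (θ j) (fun i => (w i : ℕ → ℂ) j) o := by
    intro j o
    rcases o with _ | o
    · rfl
    · rfl
  -- the ring of coefficients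
  set Wθ : Set (Fl U (sc A)) := Set.range fun o => cls U A (z o) with hWθ
  set R' : Subring (Fl U (sc A)) := Subring.closure ((Zs U (sc A) : Set (Fl U (sc A))) ∪ Wθ) with hR'
  have hRadj : ∀ x ∈ R', x ∈ Algebra.adjoin (Zs U (sc A)) Wθ := by
    intro x hx
    induction hx using Subring.closure_induction with
    | mem x hx =>
      rcases hx with hx | hx
      · exact (Algebra.adjoin (Zs U (sc A)) Wθ).algebraMap_mem ⟨x, hx⟩
      · exact Algebra.subset_adjoin hx
    | zero => exact Subalgebra.zero_mem _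
    | one => exact Subalgebra.one_mem _
    | add x y _ _ hx hy => exact Subalgebra.add_mem _ hx hy
    | neg x _ hx => exact Subalgebra.neg_mem _ hx
    | mul x y _ _ hx hy => exact Subalgebra.mul_mem _ hx hy
  set φ : IZ U (sc A) →+* R' := (psi U (sc A)).codRestrict R' (fun n => Subring.subset_closure (Or.inl ⟨n, rfl⟩))
    with hφ
  set c : Option (Fin q) → R' := fun o => ⟨cls U A (z o), Subring.subset_closure (Or.inr ⟨o, rfl⟩)⟩ with hc
  have hmap : MvPolynomial.map R'.subtype (specR U (sc A) R' φ c Q) =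
      MvPolynomial.map (Ideal.Quotient.mk (ms U (sc A))) (specO U (sc A) z Q) :=
    map_specR U (sc A) R' φ c z (fun n => rfl) (fun o => rfl) Q
  -- the value
  have hval : MvPolynomial.aeval (fun i => cls U A (y i)) (specR U (sc A) R' φ c Q) = 0 := by
    have h1 : MvPolynomial.aeval (fun i => cls U A (y i)) (specR U (sc A) R' φ c Q) =
        MvPolynomial.eval (fun i => cls U A (y i)) (MvPolynomial.map R'.subtype (specR U (sc A) R' φ c Q)) := by
      rw [MvPolynomial.eval_map, MvPolynomial.aeval_def]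
      rfl
    rw [h1, hmap]
    have h2 : MvPolynomial.eval (fun i => cls U A (y i))
        (MvPolynomial.map (Ideal.Quotient.mk (ms U (sc A))) (specO U (sc A) z Q)) =
        cls U A (MvPolynomial.eval y (specO U (sc A) z Q)) := eval_map_mk U (sc A) y _
    rw [h2, cls_eq_zero_iff]
    intro B
    filter_upwards [hrel, hA, hC.eventually_ge_atTop (3 * B)] with j h3 h4 h5
    rw [eval_specO U (sc A) z y Q j (θ j) (fun i => (w i : ℕ → ℂ) j) (hzj j), hQj j]
    have h6 := (hprop j h3).2.2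
    have hA2 : (2 : ℝ) ≤ A j := by exact_mod_cast h4
    have h7 : gr (sc A) j ≤ (A j : ℝ) ^ 3 := by
      rw [gr_sc]
      nlinarith [mul_le_mul hA2 hA2 (by norm_num) (by linarith)]
    have h8 : gr (sc A) j ^ B ≤ (A j : ℝ) ^ C j := by
      refine (pow_le_pow_left₀ (gr_pos _ j).le h7 B).trans ?_
      rw [← pow_mul]
      exact pow_le_pow_right₀ (by linarith) h5
    calc _ ≤ ‖MvPolynomial.aeval (Sum.elim (opt (θ j) fun i => (w i : ℕ → ℂ) j) fun i => (y i : ℕ → ℂ) j) (P j)‖
          * (A j : ℝ) ^ C j := mul_le_mul_of_nonneg_left h8 (norm_nonneg _)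
      _ ≤ 1 := by rw [mul_comm]; exact h6.le
  -- dependence
  by_contra hcon
  push Not at hcon
  have hind : AlgebraicIndependent R' (fun i => cls U A (y i)) := by
    apply indep_of_chain
    intro i hi
    apply hcon i
    have h1 := acl_change (R := Zs U (sc A)) Wθ ((fun i' => cls U A (y i')) '' {i' | i' < i}) hRadj hi
    refine acl_of ?_ h1
    rintro x (⟨o, rfl⟩ | hx)
    · rcases o with _ | o
      · exact acl_alg U A _ hθalg
      · exact subset_acl (Or.inl ⟨o, rfl⟩)
    · exact subset_acl (Or.inr hx)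
  rw [algebraicIndependent_iff] at hind
  have h0 := hind _ hval
  rw [h0, map_zero] at hmap
  -- all coefficients are negligible
  have h1 : ∀ s, ∀ᶠ j in (U : Filter ℕ),
      ¬ 1 ≤ (A j : ℝ) * ‖(spec (θ j) (fun i => (w i : ℕ → ℂ) j) (P j)).coeff s‖ := by
    intro s
    have h2 := congrArg (MvPolynomial.coeff s) hmap
    rw [MvPolynomial.coeff_map, MvPolynomial.coeff_zero] at h2
    have h3 : cls U A ((specO U (sc A) z Q).coeff s) = 0 := h2.symm
    rw [cls_eq_zero_iff] at h3
    filter_upwards [h3 1, hA] with j h4 h5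
    have h6 : (((specO U (sc A) z Q).coeff s : Os U (sc A)) : ℕ → ℂ) j = (spec (θ j) (fun i => (w i : ℕ → ℂ) j) (P j)).coeff s := by
      rw [← hQj j, ← map_specO U (sc A) z Q j (θ j) _ (hzj j), MvPolynomial.coeff_map, ev_apply]
    rw [h6, pow_one, gr_sc] at h4
    have hA2 : (2 : ℝ) ≤ A j := by exact_mod_cast h5
    intro h7
    nlinarith [norm_nonneg ((spec (θ j) (fun i => (w i : ℕ → ℂ) j) (P j)).coeff s)]
  have h2 : ∀ᶠ j in (U : Filter ℕ), ∀ s ∈ box (V := Fin k) d,
      ¬ 1 ≤ (A j : ℝ) * ‖(spec (θ j) (fun i => (w i : ℕ → ℂ) j) (P j)).coeff s‖ := by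
    rw [Filter.eventually_all_finset]
    exact fun s _ => h1 s
  obtain ⟨j, hj1, hj2⟩ := (h2.and hrel).exists
  obtain ⟨s, hs⟩ := (hprop j hj2).2.1
  by_cases hs0 : (spec (θ j) (fun i => (w i : ℕ → ℂ) j) (P j)).coeff s = 0
  · rw [hs0, norm_zero, mul_zero] at hs
    linarith
  · refine hj1 s (mem_box (P := spec (θ j) (fun i => (w i : ℕ → ℂ) j) (P j)) ?_ hs0) hs
    exact (totalDegree_spec _ _ _).trans (hPd j)

end Pool.Agent.L5helper52.T5
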