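import Mathlib
import Pool.Agent.L5helper52.T5.Main

/-!
# Windows: lower bounds at every scale
-/

set_option autoImplicit false

namespace Pool.Agent.L5helper52.T5

open Pool.Agent.R351.GF Filter

/-- a representative of a germ -/
noncomputable def rep {U : Ultrafilter ℕ} (b : (U : Filter ℕ).Germ ℕ) : ℕ → ℕ := Quotient.out b

theorem rep_coe {U : Ultrafilter ℕ} (a : ℕ → ℕ) : rep (a : (U : Filter ℕ).Germ ℕ) =ᶠ[(U : Filter ℕ)] a := by
  have h : ((rep (a : (U : Filter ℕ).Germ ℕ) : ℕ → ℕ) : (U : Filter ℕ).Germ ℕ) = a := Quotient.out_eq _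
  exact Filter.Germ.coe_eq.1 h

theorem rep_ne {U : Ultrafilter ℕ} {b b' : (U : Filter ℕ).Germ ℕ} (h : b ≠ b') :
    ∀ᶠ j in (U : Filter ℕ), rep b j ≠ rep b' j := by
  refine Ultrafilter.eventually_not.2 ?_
  intro h1
  apply h
  have h2 : ((rep b : ℕ → ℕ) : (U : Filter ℕ).Germ ℕ) = ((rep b' : ℕ → ℕ) : (U : Filter ℕ).Germ ℕ) :=
    Filter.Germ.coe_eq.2 h1
  have h3 : ((rep b : ℕ → ℕ) : (U : Filter ℕ).Germ ℕ) = b := Quotient.out_eq _
  have h4 : ((rep b' : ℕ → ℕ) : (U : Filter ℕ).Germ ℕ) = b' := Quotient.out_eq _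
  rw [← h3, ← h4]
  exact h2

/-- **Windows, lower bounds at every scale.** -/
theorem windows (q k D d : ℕ) : ∃ E : ℕ, ∀ N H A : ℕ, (H + 2) ^ E ≤ N → N ≤ A → ∀ w : Fin q → ℂ,
    (∀ i, ‖w i‖ ≤ A) → ∃ S : Finset ℕ, S.card ≤ q + 1 ∧ ∀ n : Fin k → ℕ, Function.Injective n →
      (∀ i, N < n i ∧ n i ≤ N + H ∧ n i ∉ S) → ¬ Rel q k D d E A w (fun i => ((Real.log (n i) : ℝ) : ℂ)) := by
  classical
  by_contra hcon
  push Not at hcon
  choose N h A hE hNA w hw hfail using hcon
  set U : Ultrafilter ℕ := hyperfilter ℕ with hU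
  have hUa : (U : Filter ℕ) ≤ atTop := Nat.hyperfilter_le_atTop
  have hAj : ∀ j, 1 ≤ j → 2 ≤ A j := by
    intro j hj
    have h1 : 2 ≤ (h j + 2) ^ j := by
      calc 2 ≤ h j + 2 := by omega
        _ = (h j + 2) ^ 1 := (pow_one _).symm
        _ ≤ (h j + 2) ^ j := Nat.pow_le_pow_right (by omega) hj
    exact h1.trans ((hE j).trans (hNA j))
  have hev1 : ∀ᶠ j in (U : Filter ℕ), 1 ≤ j := hUa (eventually_ge_atTop 1)
  have hA2 : ∀ᶠ j in (U : Filter ℕ), 2 ≤ A j := by
    filter_upwards [hev1] with j hj using hAj j hj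
  have hhA : ∀ᶠ j in (U : Filter ℕ), h j ≤ A j := by
    filter_upwards [hev1] with j hj
    have h1 : h j + 2 ≤ (h j + 2) ^ j := by
      calc h j + 2 = (h j + 2) ^ 1 := (pow_one _).symm
        _ ≤ (h j + 2) ^ j := Nat.pow_le_pow_right (by omega) hj
    have h2 := h1.trans ((hE j).trans (hNA j))
    omega
  -- the constants
  set wO : Fin q → Os U (sc A) := fun i => ⟨fun j => w j i, 1, Eventually.of_forall fun j => by
    rw [pow_one, gr_sc]
    have h1 := hw j i
    have h2 : (0 : ℝ) ≤ A j := Nat.cast_nonneg _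
    linarith⟩ with hwO
  set y : (U : Filter ℕ).Germ ℕ → Fl U (sc A) := fun b => lc U (sc A) (rep b) with hy
  set z : (U : Filter ℕ).Germ ℕ → Fl U (sc A) := fun b => lc U (sc A) (rep b) - lc U (sc A) N with hz
  set W : Set (Fl U (sc A)) := insert (lc U (sc A) N) (Set.range fun i => cls U A (wO i)) with hW
  refine no_greedy (R := Zs U (sc A)) y z W
    (fun b => ∀ᶠ j in (U : Filter ℕ), N j < rep b j ∧ rep b j ≤ N j + h j) (q + 1) ?_ ?_ ?_ ?_
  · refine (Set.encard_insert_le _ _).trans ?_
    have h1 : (Set.range fun i => cls U A (wO i)).encard ≤ q := by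
      rw [← Set.image_univ]
      refine (Set.encard_image_le _ _).trans ?_
      rw [Set.encard_univ]
      simp
    push_cast
    exact add_le_add h1 le_rfl
  · intro B hB
    set e := B.equivFin.symm with he
    have h1 : AlgebraicIndependent (Zs U (sc A))
        (fun i : Fin B.card => lc U (sc A) (rep (e i : (U : Filter ℕ).Germ ℕ)) - lc U (sc A) N) := by
      refine win_indep U (sc A) (fun i => rep (e i : (U : Filter ℕ).Germ ℕ)) N h
        (fun j i => rep (e i : (U : Filter ℕ).Germ ℕ) j - N j) ?_ ?_ ?_ ?_ ?_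
      · exact Eventually.of_forall fun j => by
          have := hNA j
          unfold sc
          omega
      · have h2 : ∀ᶠ j in (U : Filter ℕ), ∀ i i' : Fin B.card, i ≠ i' →
            rep (e i : (U : Filter ℕ).Germ ℕ) j ≠ rep (e i' : (U : Filter ℕ).Germ ℕ) j := by
          rw [Filter.eventually_all]
          intro i
          rw [Filter.eventually_all]
          intro i'
          by_cases hii : i = i'
          · exact Eventually.of_forall fun j h => absurd hii h
          · have h3 : (e i : (U : Filter ℕ).Germ ℕ) ≠ e i' := fun h => hii (e.injective (Subtype.ext h))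
            filter_upwards [rep_ne h3] with j hj _ using hj
        have h3 : ∀ᶠ j in (U : Filter ℕ), ∀ i : Fin B.card, N j < rep (e i : (U : Filter ℕ).Germ ℕ) j := by
          rw [Filter.eventually_all]
          intro i
          filter_upwards [hB _ (e i).2] with j hj using hj.1
        filter_upwards [h2, h3] with j h4 h5 i i' hii
        by_contra h6
        have h7 := h4 i i' h6
        have h8 := h5 i
        have h9 := h5 i'
        have h10 : rep (e i : (U : Filter ℕ).Germ ℕ) j - N j = rep (e i' : (U : Filter ℕ).Germ ℕ) j - N j := hii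
        omega
      · rw [Filter.eventually_all]
        intro i
        filter_upwards [hB _ (e i).2] with j hj
        omega
      · rw [Filter.eventually_all]
        intro i
        filter_upwards [hB _ (e i).2, hhA] with j hj hj2
        have := hNA j
        unfold sc
        omega
      · intro E
        filter_upwards [hUa (eventually_ge_atTop E)] with j hj
        exact (Nat.pow_le_pow_right (by omega) hj).trans (hE j)
    have h2 := h1.comp _ e.symm.injective
    have h3 : (fun i : Fin B.card => lc U (sc A) (rep (e i : (U : Filter ℕ).Germ ℕ)) - lc U (sc A) N) ∘ e.symm =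
        fun b : B => z b := by
      funext b
      simp [hz]
    rw [h3] at h2
    exact h2
  · intro b
    refine acl_sub (subset_acl (Or.inr rfl)) (subset_acl (Or.inl (Set.mem_insert _ _)))
  · intro S hS
    choose n hinj hn hrel using fun j => hfail j (S.image fun b => rep b j) (Finset.card_image_le.trans hS)
    set a : Fin k → ℕ → ℕ := fun i j => n j i with ha
    set b : Fin k → (U : Filter ℕ).Germ ℕ := fun i => ((a i : ℕ → ℕ) : (U : Filter ℕ).Germ ℕ) with hb
    have hyb : ∀ i, y (b i) = lc U (sc A) (a i) := fun i => lc_congr U (rep_coe (a i))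
    have hbinj : Function.Injective b := by
      intro i i' hii
      by_contra hne
      have h1 := Filter.Germ.coe_eq.1 hii
      obtain ⟨j, hj⟩ := h1.exists
      exact hne (hinj j hj)
    obtain ⟨i, hi⟩ := step (k := k) (D := D) (d := d) U A (fun j => j) (tendsto_id.mono_left hUa) hA2 wO
      (fun i => lo U (sc A) (a i)) (by
        filter_upwards [hhA] with j hj
        have h1 : (fun i => (lo U (sc A) (a i) : ℕ → ℂ) j) = fun i => ((Real.log (n j i) : ℝ) : ℂ) := by
          funext i
          refine lo_apply U (sc A) ?_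
          have h2 := (hn j i).2.1
          have h3 := hNA j
          unfold sc
          show n j i ≤ _
          omega
        rw [h1]
        exact hrel j)
    refine ⟨Finset.univ.image b, ?_, ?_, b i, Finset.mem_image_of_mem _ (Finset.mem_univ _), ?_⟩
    · rw [Finset.disjoint_left]
      intro c hc hcS
      obtain ⟨i', -, rfl⟩ := Finset.mem_image.1 hc
      obtain ⟨j, hj⟩ := (rep_coe (U := U) (a i')).exists
      apply (hn j i').2.2
      refine Finset.mem_image.2 ⟨b i', hcS, hj⟩
    · intro c hc
      obtain ⟨i', -, rfl⟩ := Finset.mem_image.1 hc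
      filter_upwards [rep_coe (U := U) (a i')] with j hj
      show N j < rep ((a i' : ℕ → ℕ) : (U : Filter ℕ).Germ ℕ) j ∧ _
      rw [hj]
      exact ⟨(hn j i').1, (hn j i').2.1⟩
    · rw [hyb]
      refine acl_mono ?_ hi
      rintro x (⟨i', rfl⟩ | ⟨i', hi', rfl⟩)
      · exact Or.inl (Set.mem_insert_of_mem _ ⟨i', rfl⟩)
      · refine Or.inr ⟨b i', ?_, hyb i'⟩
        rw [Finset.mem_coe, Finset.mem_erase]
        exact ⟨fun h1 => (ne_of_lt hi') (hbinj h1), Finset.mem_image_of_mem _ (Finset.mem_univ _)⟩

end Pool.Agent.L5helper52.T5
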